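import Mathlib

set_option autoImplicit false

open scoped Topology

namespace Pool.Agent.Results.MP_26bcd4_gt.OuterUnbounded

/-- `U` is an outer illuminating set of `K`: a set of unit vectors such that every boundary point
`x` of `K` satisfies `x + ε u ∈ int K` for some `u ∈ U` and some `0 < ε < 1`. -/
def IsOuterIlluminating {d : ℕ} (K U : Set (EuclideanSpace ℝ (Fin d))) : Prop :=
  (∀ u ∈ U, ‖u‖ = 1) ∧
    ∀ x ∈ frontier K, ∃ u ∈ U, ∃ ε : ℝ, 0 < ε ∧ ε < 1 ∧ x + ε • u ∈ interior K

/-- `U` is a primitive outer illuminating set of `K`: it is an outer illuminating set and none of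
its proper subsets is one. -/
def IsPrimitiveOuter {d : ℕ} (K U : Set (EuclideanSpace ℝ (Fin d))) : Prop :=
  IsOuterIlluminating K U ∧
    ∀ V : Set (EuclideanSpace ℝ (Fin d)), V ⊂ U → ¬ IsOuterIlluminating K V

/-- `IOut K` is the supremum (in `{0, 1, 2, …} ∪ {∞}`) of the cardinalities of the primitive outer
illuminating sets of `K`. -/
noncomputable def IOut {d : ℕ} (K : Set (EuclideanSpace ℝ (Fin d))) : ℕ∞ :=
  ⨆ U ∈ {U : Set (EuclideanSpace ℝ (Fin d)) | IsPrimitiveOuter K U}, U.encard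

/-- The set of points illuminated by the direction `u`. -/
def Dom {d : ℕ} (K : Set (EuclideanSpace ℝ (Fin d))) (u : EuclideanSpace ℝ (Fin d)) :
    Set (EuclideanSpace ℝ (Fin d)) :=
  {x | ∃ ε : ℝ, 0 < ε ∧ ε < 1 ∧ x + ε • u ∈ interior K}

theorem isOpen_Dom {d : ℕ} (K : Set (EuclideanSpace ℝ (Fin d))) (u : EuclideanSpace ℝ (Fin d)) :
    IsOpen (Dom K u) := by
  have h : Dom K u = ⋃ ε : ℝ, ⋃ (_ : 0 < ε), ⋃ (_ : ε < 1), (fun x => x + ε • u) ⁻¹' interior K := by
    ext x
    simp only [Dom, Set.mem_ofPred_eq, Set.mem_iUnion, Set.mem_preimage, exists_prop]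
  rw [h]
  refine isOpen_iUnion fun ε => isOpen_iUnion fun _ => isOpen_iUnion fun _ => ?_
  exact isOpen_interior.preimage (by fun_prop)

/-- If every boundary point is illuminated by a direction which illuminates at most one point
of the finite set `F` of boundary points, then some primitive outer illuminating set has at least
`F.card` elements. -/
theorem exists_primitive {d : ℕ} (K : Set (EuclideanSpace ℝ (Fin d))) (hK : IsCompact K)
    (F : Finset (EuclideanSpace ℝ (Fin d))) (hF : ∀ p ∈ F, p ∈ frontier K)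
    (h : ∀ q ∈ frontier K, ∃ u : EuclideanSpace ℝ (Fin d), ‖u‖ = 1 ∧ q ∈ Dom K u ∧
      ∀ p ∈ F, ∀ p' ∈ F, p ∈ Dom K u → p' ∈ Dom K u → p = p') :
    ∃ U : Set (EuclideanSpace ℝ (Fin d)), IsPrimitiveOuter K U ∧ (F.card : ℕ∞) ≤ U.encard := by
  classical
  have hfr : IsCompact (frontier K) :=
    hK.of_isClosed_subset isClosed_frontier (hK.isClosed.frontier_subset)
  obtain ⟨b', hb', hfin, hcov⟩ := hfr.elim_finite_subcover_image
    (b := {u : EuclideanSpace ℝ (Fin d) | ‖u‖ = 1 ∧
      ∀ p ∈ F, ∀ p' ∈ F, p ∈ Dom K u → p' ∈ Dom K u → p = p'}) (c := Dom K)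
    (fun i _ => isOpen_Dom K i) (by
      intro q hq
      obtain ⟨u, hu1, hu2, hu3⟩ := h q hq
      simp only [Set.mem_iUnion]
      exact ⟨u, ⟨hu1, hu3⟩, hu2⟩)
  have hP : IsOuterIlluminating K (hfin.toFinset : Set (EuclideanSpace ℝ (Fin d))) := by
    refine ⟨fun u hu => (hb' (by simpa using hu)).1, fun x hx => ?_⟩
    have := hcov hx
    simp only [Set.mem_iUnion] at this
    obtain ⟨u, hu, hxu⟩ := this
    exact ⟨u, by simpa using hu, hxu⟩
  obtain ⟨U, hUle, hUmin⟩ := exists_minimal_le_of_wellFoundedLT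
    (fun V : Finset (EuclideanSpace ℝ (Fin d)) => IsOuterIlluminating K (V : Set _))
    hfin.toFinset hP
  refine ⟨(U : Set _), ⟨hUmin.prop, ?_⟩, ?_⟩
  · intro V hV hVi
    have hVfin : V.Finite := U.finite_toSet.subset hV.1
    have h1 : (hVfin.toFinset : Set (EuclideanSpace ℝ (Fin d))) = V := by simp
    have h2 : hVfin.toFinset ≤ U := by
      intro x hx
      exact hV.1 (by simpa using hx)
    have h3 := hUmin.le_of_le (y := hVfin.toFinset) (by
      show IsOuterIlluminating K _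
      rw [h1]; exact hVi) h2
    apply hV.2
    intro x hx
    have := h3 hx
    simpa using this
  · rw [Set.encard_coe_eq_coe_finsetCard]
    norm_cast
    choose! f hf using fun p (hp : p ∈ frontier K) => hUmin.prop.2 p hp
    refine Finset.card_le_card_of_injOn f (fun p hp => (hf p (hF p hp)).1) ?_
    intro p hp p' hp' hpp'
    have hp0 : p ∈ F := hp
    have hp0' : p' ∈ F := hp'
    have hu : f p ∈ b' := by
      have := hUle (hf p (hF p hp0)).1
      simpa using this
    refine (hb' hu).2 p hp0 p' hp0' (hf p (hF p hp0)).2 ?_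
    rw [hpp']
    exact (hf p' (hF p' hp0')).2

section body

variable {m : ℕ}

/-- The first two coordinates, as a complex number. -/
def A (z : EuclideanSpace ℝ (Fin (m + 3))) : ℂ := ⟨z 0, z 1⟩

/-- The sum of the absolute values of the other coordinates. -/
def T (z : EuclideanSpace ℝ (Fin (m + 3))) : ℝ := ∑ i : Fin (m + 1), |z i.succ.succ|

/-- The norm defining our body. -/
noncomputable def Nn (z : EuclideanSpace ℝ (Fin (m + 3))) : ℝ := ‖A z‖ + T z

/-- The body: the unit ball of the norm `Nn`. -/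
def body (m : ℕ) : Set (EuclideanSpace ℝ (Fin (m + 3))) := {z | Nn z ≤ 1}

theorem A_add (x y : EuclideanSpace ℝ (Fin (m + 3))) : A (x + y) = A x + A y := by
  apply Complex.ext <;> simp [A]

theorem A_smul (c : ℝ) (x : EuclideanSpace ℝ (Fin (m + 3))) : A (c • x) = (c : ℂ) * A x := by
  apply Complex.ext <;> simp [A]

theorem T_add_le (x y : EuclideanSpace ℝ (Fin (m + 3))) : T (x + y) ≤ T x + T y := by
  unfold T
  rw [← Finset.sum_add_distrib]
  refine Finset.sum_le_sum fun i _ => ?_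
  simpa using abs_add_le (x i.succ.succ) (y i.succ.succ)

theorem T_smul (c : ℝ) (x : EuclideanSpace ℝ (Fin (m + 3))) : T (c • x) = |c| * T x := by
  unfold T
  rw [Finset.mul_sum]
  refine Finset.sum_congr rfl fun i _ => ?_
  simp [abs_mul]

theorem T_nonneg (x : EuclideanSpace ℝ (Fin (m + 3))) : 0 ≤ T x :=
  Finset.sum_nonneg fun _ _ => abs_nonneg _

theorem Nn_add_le (x y : EuclideanSpace ℝ (Fin (m + 3))) : Nn (x + y) ≤ Nn x + Nn y := by
  unfold Nn
  have h1 := T_add_le x y
  have h2 := norm_add_le (A x) (A y)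
  rw [A_add]
  linarith

theorem Nn_smul (c : ℝ) (x : EuclideanSpace ℝ (Fin (m + 3))) : Nn (c • x) = |c| * Nn x := by
  unfold Nn
  rw [A_smul, T_smul, norm_mul, Complex.norm_real, Real.norm_eq_abs]
  ring

theorem continuous_Nn : Continuous (Nn : EuclideanSpace ℝ (Fin (m + 3)) → ℝ) := by
  have h : (Nn : EuclideanSpace ℝ (Fin (m + 3)) → ℝ) =
      fun z => ‖((z 0 : ℝ) : ℂ) + ((z 1 : ℝ) : ℂ) * Complex.I‖ +
        ∑ i : Fin (m + 1), |z i.succ.succ| := by
    funext z
    unfold Nn T
    congr 2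
    apply Complex.ext <;> simp [A]
  rw [h]
  fun_prop

theorem abs_le_Nn (z : EuclideanSpace ℝ (Fin (m + 3))) (i : Fin (m + 3)) : |z i| ≤ Nn z := by
  unfold Nn
  have hT := T_nonneg z
  have hA := norm_nonneg (A z)
  refine Fin.cases ?_ (fun j => Fin.cases ?_ (fun k => ?_) j) i
  · have := Complex.abs_re_le_norm (A z)
    simp only [A] at this ⊢
    linarith
  · have := Complex.abs_im_le_norm (A z)
    simp only [A] at this ⊢
    have h1 : (Fin.succ (0 : Fin (m + 2))) = (1 : Fin (m + 3)) := rfl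
    rw [h1]
    linarith
  · have : |z k.succ.succ| ≤ T z := by
      unfold T
      exact Finset.single_le_sum (f := fun i : Fin (m + 1) => |z i.succ.succ|)
        (fun _ _ => abs_nonneg _) (Finset.mem_univ k)
    linarith

theorem isClosed_body : IsClosed (body m) := isClosed_le continuous_Nn continuous_const

theorem isCompact_body : IsCompact (body m) := by
  refine Metric.isCompact_of_isClosed_isBounded isClosed_body ?_
  refine (Metric.isBounded_closedBall (x := (0 : EuclideanSpace ℝ (Fin (m + 3))))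
    (r := ((m : ℝ) + 3))).subset ?_
  intro z hz
  have hz1 : Nn z ≤ 1 := hz
  rw [mem_closedBall_zero_iff]
  have h1 : ‖z‖ ^ 2 ≤ (m : ℝ) + 3 := by
    rw [EuclideanSpace.real_norm_sq_eq]
    calc ∑ i, z i ^ 2 ≤ ∑ _i : Fin (m + 3), (1 : ℝ) := by
          refine Finset.sum_le_sum fun i _ => ?_
          have := (abs_le_Nn z i).trans hz1
          rw [← sq_abs]
          exact pow_le_one₀ (abs_nonneg _) this
      _ = (m : ℝ) + 3 := by simp
  have h2 : (0 : ℝ) ≤ m := Nat.cast_nonneg m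
  nlinarith [norm_nonneg z]

theorem convex_body : Convex ℝ (body m) := by
  intro x hx y hy a b ha hb hab
  have hx1 : Nn x ≤ 1 := hx
  have hy1 : Nn y ≤ 1 := hy
  show Nn (a • x + b • y) ≤ 1
  have h1 := Nn_add_le (a • x) (b • y)
  rw [Nn_smul, Nn_smul, abs_of_nonneg ha, abs_of_nonneg hb] at h1
  nlinarith

theorem mem_interior_body_of_lt {z : EuclideanSpace ℝ (Fin (m + 3))} (h : Nn z < 1) :
    z ∈ interior (body m) := by
  have hopen : IsOpen {z : EuclideanSpace ℝ (Fin (m + 3)) | Nn z < 1} :=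
    isOpen_lt continuous_Nn continuous_const
  exact interior_maximal (fun w (hw : Nn w < 1) => (le_of_lt hw : Nn w ≤ 1)) hopen h

theorem lt_of_mem_interior_body {z : EuclideanSpace ℝ (Fin (m + 3))}
    (h : z ∈ interior (body m)) : Nn z < 1 := by
  have hc : Filter.Tendsto (fun c : ℝ => c • z) (𝓝 1) (𝓝 z) := by
    have : Continuous (fun c : ℝ => c • z) := by fun_prop
    simpa using this.tendsto 1
  have h1 : ∀ᶠ c : ℝ in 𝓝 1, c • z ∈ interior (body m) :=
    hc.eventually (isOpen_interior.mem_nhds h)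
  have h2 : ∀ᶠ c : ℝ in 𝓝[>] 1, c • z ∈ interior (body m) := nhdsWithin_le_nhds h1
  obtain ⟨c, hc1, hc2⟩ := (h2.and self_mem_nhdsWithin).exists
  have hc3 : (1 : ℝ) < c := hc2
  have h3' : c • z ∈ body m := interior_subset hc1
  have h3 : Nn (c • z) ≤ 1 := h3'
  rw [Nn_smul, abs_of_pos (by linarith)] at h3
  by_contra hcon
  have hcon' := not_lt.mp hcon
  nlinarith

theorem mem_frontier_body {z : EuclideanSpace ℝ (Fin (m + 3))} :
    z ∈ frontier (body m) ↔ Nn z = 1 := by
  rw [isClosed_body.frontier_eq]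
  constructor
  · rintro ⟨h1, h2⟩
    have h3 : Nn z ≤ 1 := h1
    refine le_antisymm h3 ?_
    by_contra hcon
    exact h2 (mem_interior_body_of_lt (not_le.mp hcon))
  · intro h
    refine ⟨(le_of_eq h : Nn z ≤ 1), fun h2 => ?_⟩
    have := lt_of_mem_interior_body h2
    linarith

/-- The direction `(-a ω, b e₂)`. -/
def dir (m : ℕ) (a b : ℝ) (w : ℂ) : EuclideanSpace ℝ (Fin (m + 3)) :=
  WithLp.toLp 2 (Fin.cons (-(a * w.re)) (Fin.cons (-(a * w.im)) (Fin.cons b (fun _ => 0))))

theorem A_dir (a b : ℝ) (w : ℂ) : A (dir m a b w) = -((a : ℂ) * w) := by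
  have h0 : (dir m a b w) 0 = -(a * w.re) := rfl
  have h1 : (dir m a b w) 1 = -(a * w.im) := rfl
  apply Complex.ext
  · simp [A, h0]
  · simp [A, h1]

theorem T_dir (a b : ℝ) (w : ℂ) : T (dir m a b w) = |b| := by
  have h0 : (dir m a b w) (0 : Fin (m + 1)).succ.succ = b := rfl
  have h1 : ∀ i : Fin m, (dir m a b w) i.succ.succ.succ = 0 := fun _ => rfl
  unfold T
  rw [Fin.sum_univ_succ, h0]
  simp only [h1, abs_zero, Finset.sum_const_zero, add_zero]

theorem T_dir' (z : EuclideanSpace ℝ (Fin (m + 3))) (hz : T z = 0) (ε a b : ℝ) (w : ℂ) :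
    T (z + ε • dir m a b w) = |ε| * |b| := by
  have h : ∀ i : Fin (m + 1), z i.succ.succ = 0 := by
    intro i
    have := (Finset.sum_eq_zero_iff_of_nonneg (f := fun i : Fin (m + 1) => |z i.succ.succ|)
      (s := Finset.univ) (fun _ _ => abs_nonneg _)).mp hz i (Finset.mem_univ i)
    simpa using this
  have h2 : T (z + ε • dir m a b w) = T (ε • dir m a b w) := by
    unfold T
    refine Finset.sum_congr rfl fun i _ => ?_
    simp [h i]
  rw [h2, T_smul, T_dir]

theorem norm_dir {a b : ℝ} (hab : a ^ 2 + b ^ 2 = 1) {w : ℂ} (hw : ‖w‖ = 1) :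
    ‖dir m a b w‖ = 1 := by
  have h1 : ‖dir m a b w‖ ^ 2 = 1 := by
    rw [EuclideanSpace.real_norm_sq_eq, Fin.sum_univ_succ, Fin.sum_univ_succ, Fin.sum_univ_succ]
    have hw2 : w.re ^ 2 + w.im ^ 2 = 1 := by
      have := Complex.sq_norm w
      rw [hw, Complex.normSq_apply] at this
      nlinarith
    simp only [dir, Fin.cons_zero, Fin.cons_succ]
    simp only [ne_eq, OfNat.ofNat_ne_zero, not_false_eq_true, zero_pow, Finset.sum_const_zero,
      add_zero]
    nlinarith
  have h2 := norm_nonneg (dir m a b w)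
  nlinarith

/-- The rim of the body. -/
noncomputable def rim (m : ℕ) (t : ℝ) : EuclideanSpace ℝ (Fin (m + 3)) :=
  WithLp.toLp 2 (Fin.cons (Real.cos t) (Fin.cons (Real.sin t) (fun _ => 0)))

theorem A_rim (t : ℝ) : A (rim m t) = ⟨Real.cos t, Real.sin t⟩ := by
  have h0 : (rim m t) 0 = Real.cos t := rfl
  have h1 : (rim m t) 1 = Real.sin t := rfl
  apply Complex.ext
  · simp only [A, h0]
  · simp only [A, h1]

theorem T_rim (t : ℝ) : T (rim m t) = 0 := by
  unfold T
  simp [rim]

theorem norm_A_rim (t : ℝ) : ‖A (rim m t)‖ = 1 := by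
  rw [A_rim]
  have h : (⟨Real.cos t, Real.sin t⟩ : ℂ) = Complex.exp (t * Complex.I) := by
    rw [Complex.exp_mul_I]
    apply Complex.ext <;> simp [Complex.cos_ofReal_re, Complex.sin_ofReal_re]
  rw [h, Complex.norm_exp_ofReal_mul_I]

theorem rim_injOn : Set.InjOn (rim m) (Set.Icc 0 Real.pi) := by
  intro s hs t ht hst
  have h : A (rim m s) = A (rim m t) := by rw [hst]
  rw [A_rim, A_rim] at h
  have h1 := congrArg Complex.re h
  simp only at h1
  exact Real.injOn_cos hs ht h1

theorem rim_eq_of_A_eq {s t : ℝ} (h : A (rim m s) = A (rim m t)) : rim m s = rim m t := by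
  rw [A_rim, A_rim] at h
  have h1 := congrArg Complex.re h
  have h2 := congrArg Complex.im h
  simp only at h1 h2
  unfold rim
  rw [h1, h2]

/-- The key cap computation: the direction `(-a ω, b e₂)` does not illuminate a rim point `p`
if `a ⟨p, ω⟩ ≤ b`. -/
theorem not_mem_Dom_rim {a b : ℝ} (hb : 0 ≤ b) {w : ℂ} {t : ℝ}
    (h : a * (Real.cos t * w.re + Real.sin t * w.im) ≤ b) :
    rim m t ∉ Dom (body m) (dir m a b w) := by
  rintro ⟨ε, hε0, _, hε⟩
  have h1 := lt_of_mem_interior_body hε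
  unfold Nn at h1
  rw [T_dir' _ (T_rim t), A_add, A_smul, A_dir, abs_of_pos hε0, abs_of_nonneg hb] at h1
  have h2 : 1 - ε * (a * (Real.cos t * w.re + Real.sin t * w.im)) ≤
      ‖A (rim m t) + (ε : ℂ) * -((a : ℂ) * w)‖ := by
    have h3 := Complex.re_le_norm ((A (rim m t) + (ε : ℂ) * -((a : ℂ) * w)) *
      (starRingEnd ℂ) (A (rim m t)))
    rw [norm_mul, Complex.norm_conj, norm_A_rim, mul_one] at h3
    refine le_trans (le_of_eq ?_) h3
    rw [A_rim]
    simp
    nlinarith [Real.sin_sq_add_cos_sq t]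
  nlinarith

theorem mem_Dom_dir {a b : ℝ} (hb : 0 ≤ b) (hba : b < a) (ha : a ≤ 1)
    {q : EuclideanSpace ℝ (Fin (m + 3))} (hq : Nn q = 1) (hA : A q ≠ 0) :
    q ∈ Dom (body m) (dir m a b ((‖A q‖⁻¹ : ℝ) * A q)) := by
  have hpos : 0 < ‖A q‖ := norm_pos_iff.mpr hA
  have hle : ‖A q‖ ≤ 1 := by
    have := T_nonneg q
    unfold Nn at hq
    linarith
  refine ⟨‖A q‖ / 2, by positivity, by linarith, mem_interior_body_of_lt ?_⟩
  unfold Nn
  have hT : T (q + (‖A q‖ / 2) • dir m a b ((‖A q‖⁻¹ : ℝ) * A q)) ≤ T q + (‖A q‖ / 2) * b := by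
    refine (T_add_le _ _).trans ?_
    rw [T_smul, T_dir, abs_of_nonneg hb, abs_of_nonneg (by positivity)]
  have hA2 : A (q + (‖A q‖ / 2) • dir m a b ((‖A q‖⁻¹ : ℝ) * A q)) =
      ((1 - a / 2 : ℝ) : ℂ) * A q := by
    rw [A_add, A_smul, A_dir]
    have : (‖A q‖ : ℂ) ≠ 0 := by exact_mod_cast hpos.ne'
    push_cast
    field_simp
    ring
  rw [hA2, norm_mul, Complex.norm_real, Real.norm_eq_abs, abs_of_pos (by linarith)]
  unfold Nn at hq
  nlinarith

/-- A coordinate direction. -/
noncomputable def cdir (m : ℕ) (i : Fin (m + 1)) (σ : ℝ) : EuclideanSpace ℝ (Fin (m + 3)) :=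
  EuclideanSpace.single i.succ.succ σ

theorem A_cdir (i : Fin (m + 1)) (σ : ℝ) : A (cdir m i σ) = 0 := by
  have h0 : (0 : Fin (m + 3)) ≠ i.succ.succ := (Fin.succ_ne_zero _).symm
  have h1 : (1 : Fin (m + 3)) ≠ i.succ.succ := by
    intro h
    have h2 : Fin.succ (0 : Fin (m + 2)) = i.succ.succ := h
    exact Fin.succ_ne_zero _ (Fin.succ_injective _ h2).symm
  apply Complex.ext <;> simp [A, cdir, h0, h1]

theorem norm_cdir (i : Fin (m + 1)) {σ : ℝ} (hσ : |σ| = 1) : ‖cdir m i σ‖ = 1 := by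
  simp [cdir, hσ]

theorem not_mem_Dom_rim_cdir (i : Fin (m + 1)) (σ : ℝ) (t : ℝ) :
    rim m t ∉ Dom (body m) (cdir m i σ) := by
  rintro ⟨ε, hε0, _, hε⟩
  have h1 := lt_of_mem_interior_body hε
  unfold Nn at h1
  rw [A_add, A_smul, A_cdir, mul_zero, add_zero, norm_A_rim] at h1
  have := T_nonneg (rim m t + ε • cdir m i σ)
  linarith

theorem mem_Dom_cdir {q : EuclideanSpace ℝ (Fin (m + 3))} (hq : Nn q = 1) (hA : A q = 0) :
    ∃ (i : Fin (m + 1)) (σ : ℝ), |σ| = 1 ∧ q ∈ Dom (body m) (cdir m i σ) := by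
  have hT : T q = 1 := by
    unfold Nn at hq
    rw [hA, norm_zero, zero_add] at hq
    exact hq
  have : ∃ i : Fin (m + 1), q i.succ.succ ≠ 0 := by
    by_contra hcon
    have hcon' : ∀ i : Fin (m + 1), q i.succ.succ = 0 := by
      intro i
      by_contra h
      exact hcon ⟨i, h⟩
    unfold T at hT
    simp [hcon'] at hT
  obtain ⟨i, hi⟩ := this
  have hle : |q i.succ.succ| ≤ 1 := (abs_le_Nn q _).trans hq.le
  have hpos : 0 < |q i.succ.succ| := abs_pos.mpr hi
  -- the direction opposite to the sign of the coordinate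
  obtain ⟨σ, hσ, hσ2⟩ : ∃ σ : ℝ, |σ| = 1 ∧
      |q i.succ.succ + (|q i.succ.succ| / 2) * σ| = |q i.succ.succ| / 2 := by
    rcases lt_or_gt_of_ne hi with h | h
    · refine ⟨1, by simp, ?_⟩
      rw [abs_of_neg h, abs_of_neg (by linarith)]
      ring
    · refine ⟨-1, by simp, ?_⟩
      rw [abs_of_pos h, abs_of_pos (by linarith)]
      ring
  refine ⟨i, σ, hσ, |q i.succ.succ| / 2, by positivity, by linarith,
    mem_interior_body_of_lt ?_⟩
  unfold Nn
  rw [A_add, A_smul, A_cdir, mul_zero, add_zero, hA, norm_zero, zero_add, ← hT]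
  unfold T
  refine Finset.sum_lt_sum (fun j _ => ?_) ⟨i, Finset.mem_univ i, ?_⟩
  · by_cases hji : j = i
    · subst hji
      simp only [cdir, PiLp.add_apply, PiLp.smul_apply, PiLp.single_apply, if_true,
        smul_eq_mul]
      rw [hσ2]
      linarith
    · have : j.succ.succ ≠ i.succ.succ := by
        intro h
        exact hji (Fin.succ_injective _ (Fin.succ_injective _ h))
      simp [cdir, this]
  · simp only [cdir, PiLp.add_apply, PiLp.smul_apply, PiLp.single_apply, if_true,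
      smul_eq_mul]
    rw [hσ2]
    linarith

theorem exists_dir (F : Finset ℝ) {q : EuclideanSpace ℝ (Fin (m + 3))} (hq : Nn q = 1) :
    ∃ u : EuclideanSpace ℝ (Fin (m + 3)), ‖u‖ = 1 ∧ q ∈ Dom (body m) u ∧
      ∀ s ∈ F, ∀ t ∈ F, rim m s ∈ Dom (body m) u → rim m t ∈ Dom (body m) u →
        rim m s = rim m t := by
  by_cases hA : A q = 0
  · obtain ⟨i, σ, hσ, hd⟩ := mem_Dom_cdir hq hA
    exact ⟨cdir m i σ, norm_cdir i hσ, hd,
      fun s _ t _ hs _ => absurd hs (not_mem_Dom_rim_cdir i σ s)⟩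
  · set w : ℂ := (‖A q‖⁻¹ : ℝ) * A q with hw
    have hpos : 0 < ‖A q‖ := norm_pos_iff.mpr hA
    have hw1 : ‖w‖ = 1 := by
      rw [hw, norm_mul, Complex.norm_real, norm_inv, norm_norm, inv_mul_cancel₀ hpos.ne']
    have hw2 : w.re ^ 2 + w.im ^ 2 = 1 := by
      have := Complex.sq_norm w
      rw [hw1, Complex.normSq_apply] at this
      nlinarith
    have hev : ∀ᶠ s : ℝ in 𝓝[<] 1, ∀ t ∈ F, A (rim m t) ≠ w →
        Real.cos t * w.re + Real.sin t * w.im ≤ s := by
      rw [Filter.eventually_all_finset]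
      intro t _
      by_cases h : A (rim m t) = w
      · exact Filter.Eventually.of_forall fun s h' => absurd h h'
      · have hlt : Real.cos t * w.re + Real.sin t * w.im < 1 := by
          have h1 : 0 < (Real.cos t - w.re) ^ 2 + (Real.sin t - w.im) ^ 2 := by
            by_contra hcon
            have hcon' := not_lt.mp hcon
            apply h
            rw [A_rim]
            apply Complex.ext
            · simp only
              nlinarith [sq_nonneg (Real.cos t - w.re), sq_nonneg (Real.sin t - w.im)]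
            · simp only
              nlinarith [sq_nonneg (Real.cos t - w.re), sq_nonneg (Real.sin t - w.im)]
          nlinarith [Real.sin_sq_add_cos_sq t]
        have : ∀ᶠ s : ℝ in 𝓝 1, Real.cos t * w.re + Real.sin t * w.im < s :=
          eventually_gt_nhds hlt
        exact nhdsWithin_le_nhds (this.mono fun s hs _ => hs.le)
    have hev2 : ∀ᶠ s : ℝ in 𝓝[<] 1, 0 < s := nhdsWithin_le_nhds (eventually_gt_nhds one_pos)
    obtain ⟨s, ⟨hs1, hs2⟩, hs3⟩ := ((hev.and hev2).and self_mem_nhdsWithin).exists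
    have hs4 : s < 1 := hs3
    set r : ℝ := Real.sqrt (1 + s ^ 2) with hr
    have hr1 : 1 ≤ r := by
      rw [hr]
      exact Real.one_le_sqrt.mpr (by nlinarith)
    have hr2 : r ^ 2 = 1 + s ^ 2 := Real.sq_sqrt (by positivity)
    have hr0 : 0 < r := by linarith
    have hab : (1 / r) ^ 2 + (s / r) ^ 2 = 1 := by
      field_simp
      linarith
    refine ⟨dir m (1 / r) (s / r) w, norm_dir hab hw1,
      mem_Dom_dir (by positivity) (by gcongr) (by rw [div_le_one hr0]; exact hr1) hq hA, ?_⟩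
    have key : ∀ t ∈ F, rim m t ∈ Dom (body m) (dir m (1 / r) (s / r) w) →
        A (rim m t) = w := by
      intro t ht hmem
      by_contra hne
      refine not_mem_Dom_rim (by positivity) ?_ hmem
      have := hs1 t ht hne
      rw [one_div_mul_eq_div]
      gcongr
    intro t ht t' ht' h h'
    exact rim_eq_of_A_eq ((key t ht h).trans (key t' ht' h').symm)

theorem body_unbounded (m n : ℕ) :
    ∃ U : Set (EuclideanSpace ℝ (Fin (m + 3))), IsPrimitiveOuter (body m) U ∧
      (n : ℕ∞) ≤ U.encard := by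
  classical
  have hinf : (Set.Icc (0 : ℝ) Real.pi).Infinite := Set.Icc_infinite Real.pi_pos
  obtain ⟨G, hG1, hG2⟩ := hinf.exists_subset_card_eq n
  have hcard : (G.image (rim m)).card = n := by
    rw [Finset.card_image_of_injOn, hG2]
    exact rim_injOn.mono hG1
  obtain ⟨U, hU1, hU2⟩ := exists_primitive (body m) isCompact_body (G.image (rim m)) (by
      intro p hp
      obtain ⟨t, _, rfl⟩ := Finset.mem_image.mp hp
      rw [mem_frontier_body]
      unfold Nn
      rw [norm_A_rim, T_rim, add_zero]) (by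
      intro q hq
      obtain ⟨u, hu1, hu2, hu3⟩ := exists_dir G (mem_frontier_body.mp hq)
      refine ⟨u, hu1, hu2, ?_⟩
      intro p hp p' hp' h h'
      obtain ⟨s, hs, rfl⟩ := Finset.mem_image.mp hp
      obtain ⟨t, ht, rfl⟩ := Finset.mem_image.mp hp'
      exact hu3 s hs t ht h h')
  exact ⟨U, hU1, by rw [hcard] at hU2; exact hU2⟩

end body

/-- For every `d ≥ 3` there is a convex body `K` in `ℝ^d` (a compact convex set with nonempty
interior) for which the supremum of the cardinalities of its primitive outer illuminating sets is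
infinite. -/
theorem result : ∀ d : ℕ, 3 ≤ d → ∃ K : Set (EuclideanSpace ℝ (Fin d)),
    IsCompact K ∧ Convex ℝ K ∧ (interior K).Nonempty ∧ IOut K = ⊤ := by
  intro d hd
  obtain ⟨m, rfl⟩ : ∃ m, d = m + 3 := ⟨d - 3, by omega⟩
  refine ⟨body m, isCompact_body, convex_body, ⟨0, mem_interior_body_of_lt ?_⟩, ?_⟩
  · have : Nn (0 : EuclideanSpace ℝ (Fin (m + 3))) = 0 := by
      have := Nn_smul 0 (0 : EuclideanSpace ℝ (Fin (m + 3)))
      simpa using this
    rw [this]
    exact one_pos
  · rw [ENat.eq_top_iff_forall_ge]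
    intro n
    obtain ⟨U, hU1, hU2⟩ := body_unbounded m n
    unfold IOut
    exact hU2.trans (le_iSup₂ (f := fun (U : Set (EuclideanSpace ℝ (Fin (m + 3))))
      (_ : U ∈ {U : Set (EuclideanSpace ℝ (Fin (m + 3))) | IsPrimitiveOuter (body m) U}) =>
        U.encard) U hU1)

end Pool.Agent.Results.MP_26bcd4_gt.OuterUnbounded
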